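import Pool.Agent.Work.MP_8da9ea_nt.AI.I_Loc
import Pool.Agent.Work.MP_8da9ea_nt.EB.I_CritE

/-!
# Block AI, item CritU: the criterion step for arbitrary invariants
-/

set_option autoImplicit false

namespace Pool.Agent.Work.MP_8da9ea_nt.AI

open MvPolynomial Metric Filter Topology Pool.Agent.Work.MP_8da9ea_nt
  Pool.Agent.Work.MP_327059_nt.GL Pool.Agent.Work.MP_8da9ea_nt.S Pool.Agent.Work.MP_8da9ea_nt.EB

namespace XCritU

/-- Small multiples of points close to the given ones are not lattice points of nearby lattices. -/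
lemma near_goodU {τ : ℂ} (hτ : 0 < τ.im) {n m : ℕ} {b : Fin m → ℂ} {x : Fin n → ℂ}
    (hNT : NT τ b x) (K : ℕ) : ∃ η : ℝ, 0 < η ∧ ∀ (τ' : ℂ) (u : Fin n → Fin m → ℂ),
      ‖τ' - τ‖ ≤ η → (∀ i j, ‖u i j - b j * x i‖ ≤ η) → ∀ s : Fin n → ℤ, s ≠ 0 →
        (∀ i, |s i| ≤ (K : ℤ)) → ∀ j, pc u s j ∉ Lam τ' := by
  have hev : ∀ᶠ q : ℂ × (Fin n → Fin m → ℂ) in 𝓝 (τ, fun i j => b j * x i),
      ∀ s ∈ {s : Fin n → ℤ | s ≠ 0 ∧ ∀ i, |s i| ≤ (K : ℤ)}, ∀ j ∈ (Set.univ : Set (Fin m)),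
        pc q.2 s j ∉ Lam q.1 := by
    have hfin : {s : Fin n → ℤ | s ≠ 0 ∧ ∀ i, |s i| ≤ (K : ℤ)}.Finite := by
      refine (Set.finite_Icc (fun _ : Fin n => -(K : ℤ)) (fun _ => (K : ℤ))).subset ?_
      rintro s ⟨_, hs⟩
      constructor
      · intro i; exact (abs_le.1 (hs i)).1
      · intro i; exact (abs_le.1 (hs i)).2
    rw [Filter.eventually_all_finite hfin]
    intro s hs
    rw [Filter.eventually_all_finite Set.finite_univ]
    intro j _
    have hc : Continuous (fun q : ℂ × (Fin n → Fin m → ℂ) => (q.1, pc q.2 s j)) := by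
      unfold pc
      fun_prop
    have h0 : pc (fun i j => b j * x i) s j ∉ Lam τ := by
      rw [CritE.pc_mul]
      exact hNT s hs.1 j
    have h1 := (hc.continuousAt (x := (τ, fun i j => b j * x i))).eventually (Dom_nhds hτ h0)
    filter_upwards [h1] with q hq
    exact hq.2
  obtain ⟨ε, hε, hball⟩ := Metric.eventually_nhds_iff_ball.1 hev
  refine ⟨ε / 2, by positivity, ?_⟩
  intro τ' u ht hu s hs0 hs j
  refine hball (τ', u) ?_ s ⟨hs0, hs⟩ j (Set.mem_univ j)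
  rw [mem_ball, Prod.dist_eq, max_lt_iff]
  constructor
  · rw [dist_eq_norm]
    exact lt_of_le_of_lt ht (half_lt_self hε)
  · refine lt_of_le_of_lt ?_ (half_lt_self hε)
    rw [dist_pi_le_iff (by positivity)]
    intro i
    rw [dist_pi_le_iff (by positivity)]
    intro j
    rw [dist_eq_norm]
    exact hu i j

/-- quotients by powers -/
lemma divpow (k : ℕ) {μ : ℂ} (hμ : μ ≠ 0) (a₀ : ℂ) : ∃ K ε₁ : ℝ, 1 ≤ K ∧ 0 < ε₁ ∧
    ∀ (a m : ℂ) (ε : ℝ), ε ≤ ε₁ → ‖a - μ ^ k * a₀‖ ≤ ε → ‖m - μ‖ ≤ ε →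
      ‖a / m ^ k - a₀‖ ≤ K * ε := by
  have hd : DifferentiableAt ℂ (fun p : ℂ × ℂ => p.1 / p.2 ^ k) (μ ^ k * a₀, μ) := by
    have h1 : DifferentiableAt ℂ (fun p : ℂ × ℂ => p.1) (μ ^ k * a₀, μ) := differentiableAt_fst
    have h2 : DifferentiableAt ℂ (fun p : ℂ × ℂ => p.2 ^ k) (μ ^ k * a₀, μ) :=
      differentiableAt_snd.pow k
    have h3 : DifferentiableAt ℂ (fun p : ℂ × ℂ => (p.2 ^ k)⁻¹) (μ ^ k * a₀, μ) :=
      h2.inv (pow_ne_zero _ hμ)
    simp only [div_eq_mul_inv]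
    exact h1.mul h3
  obtain ⟨K, hK⟩ := hd.isBigO_sub.bound
  obtain ⟨δ, hδ, hb⟩ := Metric.eventually_nhds_iff.1 hK
  refine ⟨max K 1, δ / 2, le_max_right _ _, by positivity, fun a m ε hε ha hm => ?_⟩
  have h0 : 0 ≤ ε := (norm_nonneg _).trans hm
  have h3 : ‖(a, m) - (μ ^ k * a₀, μ)‖ ≤ ε := by
    rw [Prod.mk_sub_mk, Prod.norm_mk]
    exact max_le ha hm
  have h4 := hb (y := (a, m)) (by
    rw [dist_eq_norm]
    linarith)
  have h5 : μ ^ k * a₀ / μ ^ k = a₀ := by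
    have := pow_ne_zero k hμ
    field_simp
  simp only [h5] at h4
  refine h4.trans ?_
  exact mul_le_mul (le_max_left _ _) h3 (norm_nonneg _) (by positivity)

/-- a positive lower bound for finitely many positive numbers -/
lemma exists_min {ι : Type} [Fintype ι] (e : ι → ℝ) (he : ∀ i, 0 < e i) :
    ∃ η : ℝ, 0 < η ∧ ∀ i, η ≤ e i := by
  rcases isEmpty_or_nonempty ι with h | h
  · exact ⟨1, one_pos, fun i => (h.false i).elim⟩
  · obtain ⟨i₀, hi₀⟩ := Finite.exists_min e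
    exact ⟨e i₀, he i₀, hi₀⟩

/-- an upper bound for finitely many numbers -/
lemma exists_max {ι : Type} [Fintype ι] (e : ι → ℝ) : ∃ K : ℝ, 1 ≤ K ∧ ∀ i, e i ≤ K := by
  rcases isEmpty_or_nonempty ι with h | h
  · exact ⟨1, le_rfl, fun i => (h.false i).elim⟩
  · obtain ⟨i₀, hi₀⟩ := Finite.exists_max e
    exact ⟨max (e i₀) 1, le_max_right _ _, fun i => (hi₀ i).trans (le_max_left _ _)⟩

/-- The points close to the given point satisfying the equations come from nearby lattices and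
nearby complex numbers. -/
lemma liftU {τ μ : ℂ} {n m : ℕ} {b : Fin m → ℂ} {x : Fin n → ℂ} (hτ : 0 < τ.im) (hμ : μ ≠ 0)
    (hNT : NT τ b x) (hIG : S_InvG) (hLI : S_LocU) :
    ∃ (S : Finset (MvPolynomial (VI n m) ℤ)) (C η : ℝ), 1 ≤ C ∧ 0 < η ∧
      (∀ P ∈ S, aeval (ptE τ μ (fun i j => b j * x i)) P = 0) ∧
      ∀ (θ' : VI n m → ℂ) (ε : ℝ), ε ≤ η → (∀ P ∈ S, aeval θ' P = 0) →
        (∀ i, ‖θ' i - ptE τ μ (fun i j => b j * x i) i‖ ≤ ε) →
        ∃ (τ' μ' : ℂ) (u : Fin n → Fin m → ℂ), 0 < τ'.im ∧ μ' ≠ 0 ∧ ‖τ' - τ‖ ≤ C * ε ∧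
          ptE τ' μ' u = θ' ∧ ∀ i j, ‖u i j - b j * x i‖ ≤ C * ε := by
  classical
  have hx : ∀ i j, b j * x i ∉ Lam τ := by
    intro i j
    have h1 : (Pi.single i 1 : Fin n → ℤ) ≠ 0 := by
      intro h
      have := congrFun h i
      simp at this
    have h2 := hNT _ h1 j
    have h3 : cmb (Pi.single i 1 : Fin n → ℤ) x = x i := by
      unfold cmb
      rw [Finset.sum_eq_single i]
      · simp
      · intro k _ hk; simp [Pi.single_eq_of_ne hk]
      · intro h; exact absurd (Finset.mem_univ i) h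
    rwa [h3] at h2
  have hx2 : ∀ i j, b j * x i + b j * x i ∉ Lam τ := by
    intro i j
    have h1 : (Pi.single i 2 : Fin n → ℤ) ≠ 0 := by
      intro h
      have := congrFun h i
      simp at this
    have h2 := hNT _ h1 j
    have h3 : b j * cmb (Pi.single i 2 : Fin n → ℤ) x = b j * x i + b j * x i := by
      unfold cmb
      rw [Finset.sum_eq_single i]
      · simp; ring
      · intro k _ hk; simp [Pi.single_eq_of_ne hk]
      · intro h; exact absurd (Finset.mem_univ i) h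
    rwa [h3] at h2
  obtain ⟨CG, εG, hCG, hεG, hG⟩ := hIG τ μ hτ hμ
  choose CL eL hCL heL hLo using fun i j =>
    hLI τ hτ (b j * x i) (hx i j) (CritE.wpd_ne hτ (hx i j) (hx2 i j))
  choose K2 e2 hK2 he2 hd2 using fun (i : Fin n) (j : Fin m) =>
    divpow 2 hμ (wp 1 τ (b j * x i))
  choose K3 e3 hK3 he3 hd3 using fun (i : Fin n) (j : Fin m) =>
    divpow 3 hμ (wpd τ (b j * x i))
  obtain ⟨cL, hcL1, hcL⟩ := exists_max fun q : Fin n × Fin m => CL q.1 q.2
  obtain ⟨k2, hk21, hk2⟩ := exists_max fun q : Fin n × Fin m => K2 q.1 q.2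
  obtain ⟨k3, hk31, hk3⟩ := exists_max fun q : Fin n × Fin m => K3 q.1 q.2
  obtain ⟨el, hel0, hel⟩ := exists_min (fun q : Fin n × Fin m => eL q.1 q.2) fun q => heL q.1 q.2
  obtain ⟨f2, hf20, hf2⟩ := exists_min (fun q : Fin n × Fin m => e2 q.1 q.2) fun q => he2 q.1 q.2
  obtain ⟨f3, hf30, hf3⟩ := exists_min (fun q : Fin n × Fin m => e3 q.1 q.2) fun q => he3 q.1 q.2
  obtain ⟨η, hη0, h1, h2, h3, h4, h5, h6⟩ : ∃ η : ℝ, 0 < η ∧ η ≤ εG ∧ CG * η ≤ f2 ∧ CG * η ≤ f3 ∧
      CG * η ≤ el ∧ k2 * (CG * η) ≤ el ∧ k3 * (CG * η) ≤ el := by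
    have hCG0 : 0 < CG := by linarith
    have hk20 : 0 < k2 := by linarith
    have hk30 : 0 < k3 := by linarith
    refine ⟨min εG (min (f2 / CG) (min (f3 / CG) (min (el / CG) (min (el / (k2 * CG))
      (el / (k3 * CG)))))), by positivity, min_le_left _ _, ?_, ?_, ?_, ?_, ?_⟩
    · have : min εG (min (f2 / CG) (min (f3 / CG) (min (el / CG) (min (el / (k2 * CG))
        (el / (k3 * CG)))))) ≤ f2 / CG := (min_le_right _ _).trans (min_le_left _ _)
      calc _ ≤ CG * (f2 / CG) := mul_le_mul_of_nonneg_left this hCG0.le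
        _ = f2 := by field_simp
    · have : min εG (min (f2 / CG) (min (f3 / CG) (min (el / CG) (min (el / (k2 * CG))
        (el / (k3 * CG)))))) ≤ f3 / CG :=
        ((min_le_right _ _).trans (min_le_right _ _)).trans (min_le_left _ _)
      calc _ ≤ CG * (f3 / CG) := mul_le_mul_of_nonneg_left this hCG0.le
        _ = f3 := by field_simp
    · have : min εG (min (f2 / CG) (min (f3 / CG) (min (el / CG) (min (el / (k2 * CG))
        (el / (k3 * CG)))))) ≤ el / CG :=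
        (((min_le_right _ _).trans (min_le_right _ _)).trans (min_le_right _ _)).trans
          (min_le_left _ _)
      calc _ ≤ CG * (el / CG) := mul_le_mul_of_nonneg_left this hCG0.le
        _ = el := by field_simp
    · have : min εG (min (f2 / CG) (min (f3 / CG) (min (el / CG) (min (el / (k2 * CG))
        (el / (k3 * CG)))))) ≤ el / (k2 * CG) :=
        ((((min_le_right _ _).trans (min_le_right _ _)).trans (min_le_right _ _)).trans
          (min_le_right _ _)).trans (min_le_left _ _)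
      rw [← mul_assoc]
      calc _ ≤ k2 * CG * (el / (k2 * CG)) := mul_le_mul_of_nonneg_left this (by positivity)
        _ = el := by field_simp
    · have : min εG (min (f2 / CG) (min (f3 / CG) (min (el / CG) (min (el / (k2 * CG))
        (el / (k3 * CG)))))) ≤ el / (k3 * CG) :=
        ((((min_le_right _ _).trans (min_le_right _ _)).trans (min_le_right _ _)).trans
          (min_le_right _ _)).trans (min_le_right _ _)
      rw [← mul_assoc]
      calc _ ≤ k3 * CG * (el / (k3 * CG)) := mul_le_mul_of_nonneg_left this (by positivity)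
        _ = el := by field_simp
  refine ⟨Finset.univ.image (fun ij : Fin n × Fin m => CritE.EQ ij.1 ij.2),
    cL * (k2 * CG + CG) + CG, η, ?_, hη0, ?_, ?_⟩
  · have : 0 ≤ cL * (k2 * CG + CG) := by positivity
    linarith
  · intro P hP
    rw [Finset.mem_image] at hP
    obtain ⟨⟨i, j⟩, _, h⟩ := hP
    rw [← h, CritE.EQ_aeval, CritE.pt0, CritE.pt1, CritE.ptx, CritE.pty]
    unfold xe ye
    have := wpd_sq hτ (hx i j)
    linear_combination μ ^ 6 * this
  · intro θ' ε hε hS hcl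
    have hP : ∀ i j, aeval θ' (CritE.EQ i j : MvPolynomial (VI n m) ℤ) = 0 := fun i j =>
      hS _ (Finset.mem_image.2 ⟨(i, j), Finset.mem_univ _, rfl⟩)
    have hε0 : 0 ≤ ε := (norm_nonneg _).trans (hcl (Sum.inl 0))
    have c2 := hcl (Sum.inl 0)
    have c3 := hcl (Sum.inl 1)
    rw [CritE.pt0] at c2
    rw [CritE.pt1] at c3
    obtain ⟨τ', μ', hτ', hμ', g2, g3, ht, hm⟩ := hG _ _ ε (hε.trans h1) c2 c3
    have hCGε : CG * ε ≤ CG * η := mul_le_mul_of_nonneg_left hε (by linarith)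
    have hεCG : ε ≤ CG * ε := by nlinarith
    have hxc : ∀ i j, ‖θ' (Sum.inr (i, j, false)) / μ' ^ 2 - wp 1 τ (b j * x i)‖ ≤
        k2 * (CG * ε) := by
      intro i j
      have h7 := hcl (Sum.inr (i, j, false))
      rw [CritE.ptx] at h7
      refine (hd2 i j _ μ' (CG * ε) ((hCGε.trans h2).trans (hf2 (i, j))) (h7.trans hεCG) hm).trans ?_
      exact mul_le_mul_of_nonneg_right (hk2 (i, j)) (by positivity)
    have hyc : ∀ i j, ‖θ' (Sum.inr (i, j, true)) / μ' ^ 3 - wpd τ (b j * x i)‖ ≤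
        k3 * (CG * ε) := by
      intro i j
      have h7 := hcl (Sum.inr (i, j, true))
      rw [CritE.pty] at h7
      refine (hd3 i j _ μ' (CG * ε) ((hCGε.trans h3).trans (hf3 (i, j))) (h7.trans hεCG) hm).trans ?_
      exact mul_le_mul_of_nonneg_right (hk3 (i, j)) (by positivity)
    have hu : ∀ i j, ∃ u ∉ Lam τ', wp 1 τ' u = θ' (Sum.inr (i, j, false)) / μ' ^ 2 ∧
        wpd τ' u = θ' (Sum.inr (i, j, true)) / μ' ^ 3 ∧
        ‖u - b j * x i‖ ≤ CL i j * (‖θ' (Sum.inr (i, j, false)) / μ' ^ 2 - wp 1 τ (b j * x i)‖ +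
          ‖τ' - τ‖) := by
      intro i j
      apply hLo i j
      · exact ((ht.trans hCGε).trans h4).trans (hel (i, j))
      · refine (hxc i j).trans (le_trans ?_ (h5.trans (hel (i, j))))
        exact mul_le_mul_of_nonneg_left hCGε (by linarith)
      · refine (hyc i j).trans (le_trans ?_ (h6.trans (hel (i, j))))
        exact mul_le_mul_of_nonneg_left hCGε (by linarith)
      · have h1 := hP i j
        rw [CritE.EQ_aeval, ← g2, ← g3] at h1
        field_simp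
        linear_combination h1
    choose u huL hux huy huc using hu
    refine ⟨τ', μ', u, hτ', hμ', ?_, ?_, ?_⟩
    · refine ht.trans ?_
      have : 0 ≤ cL * (k2 * CG + CG) * ε := by positivity
      nlinarith
    · funext k
      rcases k with q | ⟨i, j, c⟩
      · fin_cases q
        · exact (CritE.pt0 τ' μ' u).trans g2
        · exact (CritE.pt1 τ' μ' u).trans g3
      · cases c
        · rw [CritE.ptx]
          unfold xe
          rw [hux]
          field_simp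
        · rw [CritE.pty]
          unfold ye
          rw [huy]
          field_simp
    · intro i j
      refine (huc i j).trans ?_
      have h8 : ‖θ' (Sum.inr (i, j, false)) / μ' ^ 2 - wp 1 τ (b j * x i)‖ + ‖τ' - τ‖ ≤
          (k2 * CG + CG) * ε := by
        have := hxc i j
        linarith
      have h9 : CL i j * (‖θ' (Sum.inr (i, j, false)) / μ' ^ 2 - wp 1 τ (b j * x i)‖ +
          ‖τ' - τ‖) ≤ cL * ((k2 * CG + CG) * ε) :=
        mul_le_mul (hcL (i, j)) h8 (by positivity) (by linarith)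
      have h10 : 0 ≤ CG * ε := by positivity
      nlinarith

end XCritU

theorem CritU_pf (hTree : S_Tree) (hTV : S_TrueVal) (hZ : S_ZUp) (hPE : S_PEval)
    (hIG : S_InvG) (hLI : S_LocU) (hCrit : S_Crit) (hTen : S_Tensor) : S_CritU := by
  intro m n G hm hn hG τ μ b x hτ hμ hNT hθ
  set θ : VI n m → ℂ := ptE τ μ (fun i j => b j * x i) with hθdef
  obtain ⟨C0, hC01, hC0⟩ := hCrit (VI n m) (m - 2) θ hθ
  obtain ⟨C1, K1, hC11, hT1⟩ := hTree n m hn
  obtain ⟨C2, hC21, hC2⟩ := hZ τ μ hτ hμ n m θ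
  obtain ⟨S, C3, η, hC31, hη0, hSv, hlift⟩ := XCritU.liftU (b := b) (x := x) hτ hμ hNT hIG hLI
  obtain ⟨η4, hη4, hgood⟩ := XCritU.near_goodU hτ hNT K1
  obtain ⟨KS, hKS⟩ := CritE.fin_bd S
  set K : ℝ := G * m * (C1 + 1) + 1 with hK
  have hK1 : 1 ≤ K := by
    have : 0 ≤ (G : ℝ) * m * (C1 + 1) := by positivity
    linarith
  have hA0 : 0 ≤ 2 * (G * m * (C2 * (C1 + 1))) := by positivity
  have hB0 : 0 ≤ 4 * C0 * (2 * K) ^ (m - 1) := by positivity
  set C : ℝ := 2 * (G * m * (C2 * (C1 + 1))) + 4 * C0 * (2 * K) ^ (m - 1) + 1 with hC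
  have hC1' : 1 ≤ C := by linarith
  refine ⟨C, ⌈1 + KS + 1 / η + 1 / η4 + 1 / (τ.im / 2) + C3⌉₊, hC1', ?_⟩
  intro T hT W h U hW hh hU p hp0 hpb hsm
  have hTr1 : 1 + KS + 1 / η + 1 / η4 + 1 / (τ.im / 2) + C3 ≤ (T : ℝ) :=
    (Nat.le_ceil _).trans (by exact_mod_cast hT)
  have hτi' : 0 < 1 / (τ.im / 2) := by positivity
  have hKS0 : (0 : ℝ) ≤ KS := Nat.cast_nonneg _
  have hη' : 0 < 1 / η := by positivity
  have hη4' : 0 < 1 / η4 := by positivity
  have hT1r : (1 : ℝ) ≤ T := by linarith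
  have hT1n : 1 ≤ T := by exact_mod_cast hT1r
  have hWr : (1 : ℝ) ≤ W := by exact_mod_cast hW
  have hT11 : (1 : ℝ) ≤ (T : ℝ) ^ 11 := one_le_pow₀ hT1r
  have hT10 : (1 : ℝ) ≤ (T : ℝ) ^ 10 := one_le_pow₀ hT1r
  have hTT : (T : ℝ) ≤ (T : ℝ) ^ 11 := by
    calc (T : ℝ) = (T : ℝ) ^ 1 := (pow_one _).symm
      _ ≤ (T : ℝ) ^ 11 := pow_le_pow_right₀ hT1r (by norm_num)
  have hTT10 : (T : ℝ) ^ 10 ≤ (T : ℝ) ^ 11 := pow_le_pow_right₀ hT1r (by norm_num)
  have hWT : (T : ℝ) ^ 11 ≤ W * (T : ℝ) ^ 11 := by nlinarith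
  set N : ℝ := W * (T : ℝ) ^ 11 + h with hNN
  have hTN : (T : ℝ) ≤ N := by linarith
  have hN1 : 1 ≤ N := by linarith
  have hN0 : 0 < N := by linarith
  have hNp : 1 ≤ N ^ (m - 1) := one_le_pow₀ hN1
  have hNNp : N ≤ N ^ (m - 1) := by
    calc N = N ^ 1 := (pow_one _).symm
      _ ≤ N ^ (m - 1) := pow_le_pow_right₀ hN1 (by omega)
  set X : ℕ := ⌈K * N⌉₊ with hX
  have hXlo : K * N ≤ X := Nat.le_ceil _
  have hKN : 1 ≤ K * N := by nlinarith
  have hXhi : (X : ℝ) ≤ 2 * K * N := by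
    have := (Nat.ceil_lt_add_one (a := K * N) (by linarith)).le
    linarith
  have hNX : N ≤ X := by nlinarith
  have hX1r : (1 : ℝ) ≤ X := by linarith
  have hX1 : 1 ≤ X := by exact_mod_cast hX1r
  have hX0 : (0 : ℝ) < X := by linarith
  have hm1 : m - 2 + 1 = m - 1 := by omega
  have hU0 : 0 < U := by
    have : 0 < C * N ^ (m - 1) := by positivity
    linarith
  have hCr : C0 * (X : ℝ) ^ (m - 2 + 1) ≤ U / 2 := by
    rw [hm1]
    have h1 : (X : ℝ) ^ (m - 1) ≤ (2 * K * N) ^ (m - 1) := pow_le_pow_left₀ hX0.le hXhi _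
    rw [mul_pow] at h1
    have h2 : C0 * (X : ℝ) ^ (m - 1) ≤ C0 * ((2 * K) ^ (m - 1) * N ^ (m - 1)) :=
      mul_le_mul_of_nonneg_left h1 (by linarith)
    have h3 : 4 * C0 * (2 * K) ^ (m - 1) * N ^ (m - 1) ≤ C * N ^ (m - 1) := by
      apply mul_le_mul_of_nonneg_right _ (by linarith)
      linarith
    have h4 : 0 ≤ C0 * ((2 * K) ^ (m - 1) * N ^ (m - 1)) := by positivity
    nlinarith
  -- the set of polynomials
  let PP : Set (MvPolynomial (VI n m) ℤ) := {P | P ∈ S ∨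
    ∃ (s : Fin G → Fin n → ℤ) (V : Fin G → Fin m → Tri n m),
      (∀ r, s r ≠ 0 ∧ ∀ i, 0 ≤ s r i ∧ s r i ≤ (T : ℤ)) ∧ (∀ r j, VP j (s r) (V r j)) ∧
      (∀ r j, Siz (C1 * T ^ 10) (V r j)) ∧ P = PE p V}
  have hh1 : (0 : ℝ) ≤ C1 * (T : ℝ) ^ 10 := by positivity
  have hPP : ∀ P ∈ PP, P.totalDegree ≤ X ∧ len P ≤ Real.exp X ∧
      ‖aeval θ P‖ ≤ Real.exp (-(U / 2)) := by
    intro P hP
    rcases hP with hP | ⟨s, V, hs, hVP, hVs, rfl⟩
    · obtain ⟨h1, h2⟩ := hKS P hP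
      have h3 : (KS : ℝ) ≤ X := by linarith
      refine ⟨h1.trans (by exact_mod_cast h3), h2.trans (Real.exp_le_exp.2 h3), ?_⟩
      rw [hSv P hP, norm_zero]
      exact (Real.exp_pos _).le
    · have hval : ∀ r j, Val τ μ θ (b j * cmb (s r) x) (V r j) := fun r j =>
        hTV τ μ hτ hμ n m b x hNT j (s r) (V r j) (hVP r j)
      have hsz := (hPE n m G W p V).2 (C1 * T ^ 10) h hh1 (by linarith) hVs hpb
      have h5 : (W : ℝ) * (C1 * (T : ℝ) ^ 10 + 1) ≤ (C1 + 1) * (W * (T : ℝ) ^ 11) := by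
        have h6 : C1 * (T : ℝ) ^ 10 + 1 ≤ (C1 + 1) * (T : ℝ) ^ 11 := by nlinarith
        nlinarith
      have h5' : (G : ℝ) * m * W * (C1 * (T : ℝ) ^ 10 + 1) ≤
          G * m * (C1 + 1) * (W * (T : ℝ) ^ 11) := by
        have h6 : (0 : ℝ) ≤ (G : ℝ) * m := by positivity
        nlinarith
      have h7 : (G : ℝ) * m * W * (C1 * (T : ℝ) ^ 10 + 1) + h ≤ X := by
        refine le_trans ?_ hXlo
        have h8 : (0 : ℝ) ≤ (G : ℝ) * m * (C1 + 1) := by positivity
        rw [hK, hNN]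
        nlinarith
      refine ⟨?_, ?_, ?_⟩
      · have := hsz.1.trans h7
        exact_mod_cast this
      · exact hsz.2.trans (Real.exp_le_exp.2 h7)
      · refine (CritE.true_bd hh1 hC2 hPE p V b (fun r => cmb (s r) x) hval hVs).trans ?_
        have h9 := hsm s hs
        calc Real.exp (G * m * W * (C2 * (C1 * (T : ℝ) ^ 10 + 1))) *
              (‖AF τ μ b p (fun r => cmb (s r) x)‖ *
                ∏ r, ∏ j, d1 τ (b j * cmb (s r) x) ^ (2 * W))
            ≤ Real.exp (G * m * W * (C2 * (C1 * (T : ℝ) ^ 10 + 1))) * Real.exp (-U) :=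
              mul_le_mul_of_nonneg_left h9 (Real.exp_pos _).le
          _ = Real.exp (G * m * W * (C2 * (C1 * (T : ℝ) ^ 10 + 1)) + -U) := by rw [Real.exp_add]
          _ ≤ Real.exp (-(U / 2)) := by
              apply Real.exp_le_exp.2
              have h10 : (G : ℝ) * m * W * (C2 * (C1 * (T : ℝ) ^ 10 + 1)) ≤
                  G * m * (C2 * (C1 + 1)) * N := by
                have h11 : (W : ℝ) * (T : ℝ) ^ 11 ≤ N := by linarith
                calc (G : ℝ) * m * W * (C2 * (C1 * (T : ℝ) ^ 10 + 1))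
                    = C2 * (G * m * W * (C1 * (T : ℝ) ^ 10 + 1)) := by ring
                  _ ≤ C2 * (G * m * (C1 + 1) * (W * (T : ℝ) ^ 11)) :=
                      mul_le_mul_of_nonneg_left h5' (by linarith)
                  _ ≤ C2 * (G * m * (C1 + 1) * N) := by
                      apply mul_le_mul_of_nonneg_left _ (by linarith)
                      exact mul_le_mul_of_nonneg_left h11 (by positivity)
                  _ = _ := by ring
              have h12 : G * m * (C2 * (C1 + 1)) * N ≤ G * m * (C2 * (C1 + 1)) * N ^ (m - 1) :=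
                mul_le_mul_of_nonneg_left hNNp (by positivity)
              have h13 : 2 * (G * m * (C2 * (C1 + 1))) * N ^ (m - 1) ≤ C * N ^ (m - 1) := by
                apply mul_le_mul_of_nonneg_right _ (by linarith)
                linarith
              nlinarith
  obtain ⟨θ', hz, hclose⟩ := hC0 X (U / 2) hX1 hCr PP hPP
  -- the size of the error
  set R : ℝ := (U / 2) / (C0 * (X : ℝ) ^ (m - 2)) with hR
  have hRe : -(U / 2) / (C0 * (X : ℝ) ^ (m - 2)) = -R := by rw [hR, neg_div]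
  rw [hRe] at hclose
  have hNm : 0 < N ^ (m - 2) := by positivity
  have hXm : 0 < (X : ℝ) ^ (m - 2) := by positivity
  have hC0p : 0 < C0 := by linarith
  have hCp : 0 < C := by linarith
  set Q : ℝ := U / N ^ (m - 2) with hQ
  have hQC : N ≤ Q / C := by
    rw [le_div_iff₀ hCp, hQ, le_div_iff₀ hNm]
    have : N ^ (m - 1) = N ^ (m - 2) * N := by rw [← hm1, pow_succ]
    rw [this] at hU
    linarith
  have hRQ : 2 * (Q / C) ≤ R := by
    rw [hR, le_div_iff₀ (by positivity), hQ]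
    have h1 : (X : ℝ) ^ (m - 2) ≤ (2 * K) ^ (m - 2) * N ^ (m - 2) := by
      rw [← mul_pow]
      exact pow_le_pow_left₀ hX0.le hXhi _
    have h2 : (2 * K) ^ (m - 2) ≤ (2 * K) ^ (m - 1) := pow_le_pow_right₀ (by linarith) (by omega)
    have h3 : 4 * C0 * (2 * K) ^ (m - 2) ≤ C := by
      have : 4 * C0 * (2 * K) ^ (m - 2) ≤ 4 * C0 * (2 * K) ^ (m - 1) :=
        mul_le_mul_of_nonneg_left h2 (by linarith)
      linarith
    have h4 : C0 * (X : ℝ) ^ (m - 2) ≤ C0 * ((2 * K) ^ (m - 2) * N ^ (m - 2)) :=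
      mul_le_mul_of_nonneg_left h1 hC0p.le
    have h5 : 4 * (C0 * (X : ℝ) ^ (m - 2)) ≤ C * N ^ (m - 2) := by
      calc 4 * (C0 * (X : ℝ) ^ (m - 2)) ≤ 4 * (C0 * ((2 * K) ^ (m - 2) * N ^ (m - 2))) := by
            linarith
        _ = (4 * C0 * (2 * K) ^ (m - 2)) * N ^ (m - 2) := by ring
        _ ≤ C * N ^ (m - 2) := mul_le_mul_of_nonneg_right h3 hNm.le
    have h6 : 2 * (U / N ^ (m - 2) / C) * (C0 * (X : ℝ) ^ (m - 2)) =
        (U / 2) * ((4 * (C0 * (X : ℝ) ^ (m - 2))) / (C * N ^ (m - 2))) := by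
      field_simp
      ring
    rw [h6]
    have h7 : (4 * (C0 * (X : ℝ) ^ (m - 2))) / (C * N ^ (m - 2)) ≤ 1 :=
      (div_le_one (by positivity)).2 h5
    calc (U / 2) * ((4 * (C0 * (X : ℝ) ^ (m - 2))) / (C * N ^ (m - 2))) ≤ (U / 2) * 1 :=
          mul_le_mul_of_nonneg_left h7 (by linarith)
      _ = U / 2 := mul_one _
  have hε1 : Real.exp (-R) ≤ η := by
    have h1 : Real.exp (-R) ≤ Real.exp (-(T : ℝ)) := Real.exp_le_exp.2 (by linarith)
    exact h1.trans (CritE.small hη0 (by linarith))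
  have hε2 : C3 * Real.exp (-R) ≤ Real.exp (-(Q / C)) := by
    have h1 : C3 ≤ Real.exp T := by
      have := Real.add_one_le_exp (T : ℝ)
      linarith
    calc C3 * Real.exp (-R) ≤ Real.exp T * Real.exp (-R) :=
          mul_le_mul_of_nonneg_right h1 (Real.exp_pos _).le
      _ = Real.exp (T + -R) := by rw [Real.exp_add]
      _ ≤ Real.exp (-(Q / C)) := Real.exp_le_exp.2 (by linarith)
  obtain ⟨τ', μ', u, hτ', hμ', htc, hu, huc⟩ :=
    hlift θ' (Real.exp (-R)) hε1 (fun P hP => hz P (Or.inl hP)) hclose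
  have htc4 : ‖τ' - τ‖ ≤ η4 := by
    refine (htc.trans hε2).trans ?_
    have h1 : Real.exp (-(Q / C)) ≤ Real.exp (-(T : ℝ)) := Real.exp_le_exp.2 (by linarith)
    exact h1.trans (CritE.small hη4 (by linarith))
  have htc5 : ‖τ' - τ‖ ≤ τ.im / 2 := by
    refine (htc.trans hε2).trans ?_
    have h1 : Real.exp (-(Q / C)) ≤ Real.exp (-(T : ℝ)) := Real.exp_le_exp.2 (by linarith)
    exact h1.trans (CritE.small (by positivity) (by linarith))
  have huc2 : ∀ i j, ‖u i j - b j * x i‖ ≤ Real.exp (-(Q / C)) := fun i j =>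
    (huc i j).trans hε2
  have huc4 : ∀ i j, ‖u i j - b j * x i‖ ≤ η4 := by
    intro i j
    refine (huc2 i j).trans ?_
    have h1 : Real.exp (-(Q / C)) ≤ Real.exp (-(T : ℝ)) := Real.exp_le_exp.2 (by linarith)
    exact h1.trans (CritE.small hη4 (by linarith))
  have hgd := hgood τ' u htc4 huc4
  -- the tensor argument
  have hpC : (fun a => (p a : ℂ)) ≠ 0 := by
    intro h0
    apply hp0
    funext a
    have := congrFun h0 a
    simpa using this
  have hj0 : 0 < m := by omega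
  have hs0 : ∀ s : Fin n → ℤ, (∀ j, pc u s j ∉ Lam τ') → s ≠ 0 := by
    intro s hs h0
    apply hs ⟨0, hj0⟩
    rw [h0]
    have : pc u (0 : Fin n → ℤ) ⟨0, hj0⟩ = 0 := by simp [pc]
    rw [this, mem_Lam]
    exact ⟨0, 0, by simp⟩
  obtain ⟨r, hr0, hr⟩ := hTen (Fin m → Fin W)
    {s : Fin n → ℤ // (∀ i, 0 ≤ s i ∧ s i ≤ (T : ℤ)) ∧ ∀ j, pc u s j ∉ Lam τ'} G
    (fun a s => ∏ j, xe τ' μ' (pc u s.1 j) ^ (a j : ℕ)) (fun a => (p a : ℂ)) hpC (by
      intro y
      have hV : ∀ r j, ∃ V : Tri n m, VP j (y r).1 V ∧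
          Val τ' μ' (ptE τ' μ' u) (pc u (y r).1 j) V ∧ Siz (C1 * T ^ 10) V := by
        intro r j
        refine hT1 τ' μ' hτ' hμ' j u (fun s hs hsK => hgd s hs hsK j) T (y r).1 hT1n ?_
          ((y r).2.2 j)
        intro i
        obtain ⟨h1, h2⟩ := (y r).2.1 i
        rw [abs_of_nonneg h1]
        exact h2
      choose V hVP hVv hVs using hV
      have h0 : aeval θ' (PE p V) = 0 := by
        apply hz
        refine Or.inr ⟨fun r => (y r).1, V, ?_, hVP, hVs, rfl⟩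
        intro r
        exact ⟨hs0 _ (y r).2.2, (y r).2.1⟩
      rw [← hu, (hPE n m G W p V).1 τ' μ' (ptE τ' μ' u) (fun r j => pc u (y r).1 j) hVv] at h0
      rcases mul_eq_zero.1 h0 with h1 | h1
      · exfalso
        rw [Finset.prod_eq_zero_iff] at h1
        obtain ⟨r, _, h1⟩ := h1
        rw [Finset.prod_eq_zero_iff] at h1
        obtain ⟨j, _, h1⟩ := h1
        exact (pow_ne_zero _ (hVv r j).z0) h1
      · exact h1)
  obtain ⟨F, hF0, hFd, hFv⟩ := CritE.mkF hW hμ' r hr0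
  refine ⟨τ', u, F, hτ', htc5, ?_, hF0, hFd, ?_⟩
  · intro i j
    refine (huc2 i j).trans (le_of_eq ?_)
    congr 1
    rw [hQ]
    field_simp
  · intro s hs hsL
    rw [hFv]
    exact hr ⟨s, hs, hsL⟩

end Pool.Agent.Work.MP_8da9ea_nt.AI
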