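import Pool.Agent.Work.MP_8da9ea_nt.AI.Defs
import Pool.Agent.Work.MP_8da9ea_nt.EB.I_LMk
import Pool.Agent.Work.MP_8da9ea_nt.EB.I_NZ

/-!
# Block AI, item LMU: measure of linear independence, uniform over the imaginary quadratic fields
-/

set_option autoImplicit false

namespace Pool.Agent.Work.MP_8da9ea_nt.AI

open MvPolynomial Metric Filter Topology Pool.Agent.Work.MP_8da9ea_nt
  Pool.Agent.Work.MP_327059_nt.GL Pool.Agent.Work.MP_8da9ea_nt.S Pool.Agent.Work.MP_8da9ea_nt.EB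

namespace XLMU

/-- linear forms -/
noncomputable def LF {m : ℕ} (a : Fin m → ℤ) : MvPolynomial (Fin m) ℤ := ∑ j, C (a j) * X j

theorem LF_eval {m : ℕ} (a : Fin m → ℤ) (b : Fin m → ℂ) :
    aeval b (LF a) = ∑ j, (a j : ℂ) * b j := by
  unfold LF
  rw [map_sum]
  refine Finset.sum_congr rfl fun j _ => ?_
  rw [map_mul, aeval_X, aeval_C]
  simp

theorem LF_deg {m : ℕ} (a : Fin m → ℤ) : (LF a).totalDegree ≤ 1 := by
  unfold LF
  refine totalDegree_finsetSum_le fun j _ => ?_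
  refine (totalDegree_mul _ _).trans ?_
  rw [totalDegree_C, totalDegree_X]

theorem LF_len {m : ℕ} (a : Fin m → ℤ) (B : ℝ) (hB : ∀ j, |(a j : ℝ)| ≤ B) :
    len (LF a) ≤ m * B := by
  unfold LF
  refine (Val_len_sum Finset.univ _).trans ?_
  have h2 : ∀ j ∈ (Finset.univ : Finset (Fin m)),
      len (C (a j) * X j : MvPolynomial (Fin m) ℤ) ≤ B := by
    intro j _
    refine (Val_len_mul _ _).trans ?_
    have e1 : len (C (a j) : MvPolynomial (Fin m) ℤ) ≤ |(a j : ℝ)| := Val_len_C _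
    have e2 : len (X j : MvPolynomial (Fin m) ℤ) ≤ 1 := Val_len_X _
    have e3 := Val_len_nonneg (X j : MvPolynomial (Fin m) ℤ)
    refine (mul_le_mul e1 e2 e3 (abs_nonneg _)).trans ?_
    rw [mul_one]
    exact hB j
  refine (Finset.sum_le_sum h2).trans ?_
  rw [Finset.sum_const, Finset.card_univ, Fintype.card_fin, nsmul_eq_mul]

/-- the norm form -/
noncomputable def QF {m : ℕ} (a c : Fin m → ℤ) (c₀ d e : ℤ) : MvPolynomial (Fin m) ℤ :=
  C c₀ * (LF a * LF a) + (C d * (LF a * LF c) + C e * (LF c * LF c))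

theorem QF_eval {m : ℕ} (a c : Fin m → ℤ) (c₀ d e : ℤ) (b : Fin m → ℂ) :
    aeval b (QF a c c₀ d e) = c₀ * (∑ j, (a j : ℂ) * b j) ^ 2 +
      d * ((∑ j, (a j : ℂ) * b j) * ∑ j, (c j : ℂ) * b j) + e * (∑ j, (c j : ℂ) * b j) ^ 2 := by
  unfold QF
  simp only [map_add, map_mul, LF_eval, aeval_C]
  simp only [algebraMap_int_eq, eq_intCast]
  ring

theorem QF_deg {m : ℕ} (a c : Fin m → ℤ) (c₀ d e : ℤ) : (QF a c c₀ d e).totalDegree ≤ 2 := by
  have key : ∀ (k : ℤ) (x y : Fin m → ℤ),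
      (C k * (LF x * LF y) : MvPolynomial (Fin m) ℤ).totalDegree ≤ 2 := by
    intro k x y
    refine (totalDegree_mul _ _).trans ?_
    rw [totalDegree_C, zero_add]
    refine (totalDegree_mul _ _).trans ?_
    have := LF_deg x
    have := LF_deg y
    omega
  unfold QF
  exact (totalDegree_add _ _).trans (max_le (key _ _ _)
    ((totalDegree_add _ _).trans (max_le (key _ _ _) (key _ _ _))))

theorem QF_len {m : ℕ} (a c : Fin m → ℤ) (c₀ d e : ℤ) (B D : ℝ) (ha : ∀ j, |(a j : ℝ)| ≤ B)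
    (hc : ∀ j, |(c j : ℝ)| ≤ B) (hB : 0 ≤ B) (h1 : |(c₀ : ℝ)| ≤ D) (h2 : |(d : ℝ)| ≤ 2 * D)
    (h3 : |(e : ℝ)| ≤ D) : len (QF a c c₀ d e) ≤ 4 * (m * B) ^ 2 * D := by
  have hmB : 0 ≤ (m : ℝ) * B := by positivity
  have key : ∀ (k : ℤ) (x y : Fin m → ℤ) (E : ℝ), |(k : ℝ)| ≤ E → (∀ j, |(x j : ℝ)| ≤ B) →
      (∀ j, |(y j : ℝ)| ≤ B) →
      len (C k * (LF x * LF y) : MvPolynomial (Fin m) ℤ) ≤ E * (m * B) ^ 2 := by
    intro k x y E hk hx hy
    refine (Val_len_mul _ _).trans ?_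
    have e1 : len (LF x * LF y) ≤ (m * B) * (m * B) :=
      (Val_len_mul _ _).trans (mul_le_mul (LF_len x B hx) (LF_len y B hy) (Val_len_nonneg _) hmB)
    have e2 : len (C k : MvPolynomial (Fin m) ℤ) ≤ E := (Val_len_C _).trans hk
    refine (mul_le_mul e2 e1 (Val_len_nonneg _) ((abs_nonneg _).trans hk)).trans ?_
    rw [pow_two]
  unfold QF
  have k1 := key c₀ a a D h1 ha ha
  have k2 := key d a c (2 * D) h2 ha hc
  have k3 := key e c c D h3 hc hc
  have l1 := Val_len_add (C c₀ * (LF a * LF a) : MvPolynomial (Fin m) ℤ)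
    (C d * (LF a * LF c) + C e * (LF c * LF c))
  have l2 := Val_len_add (C d * (LF a * LF c) : MvPolynomial (Fin m) ℤ) (C e * (LF c * LF c))
  linarith

end XLMU

open XLMU in
theorem LMU_pf : S_LMU := by
  intro Q m b hFT hA R c
  obtain ⟨T₁, hT₁⟩ := I_LMk.main Q b hFT (3 * c + 7) (3 ^ (3 * c + 7) * (4 * (m : ℝ) ^ 2 + m + 1))
    (by
      have h1 : (1 : ℝ) ≤ 3 ^ (3 * c + 7) := one_le_pow₀ (by norm_num)
      have h2 : (1 : ℝ) ≤ 4 * (m : ℝ) ^ 2 + m + 1 := by nlinarith [Nat.cast_nonneg (α := ℝ) m]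
      nlinarith)
  obtain ⟨T₂, hT₂⟩ := I_NZ.exp_ev (2 * c + 6)
  obtain ⟨K₁, hK₁⟩ : ∃ K : ℕ, R + 1 ≤ (K : ℝ) := ⟨_, Nat.le_ceil _⟩
  obtain ⟨K₂, hK₂⟩ : ∃ K : ℕ, ∑ j, ‖b j‖ ≤ (K : ℝ) := ⟨_, Nat.le_ceil _⟩
  refine ⟨3 * T₁ + T₂ + K₁ + K₂ + 3, fun T hT τ hR w hw0 hwI hwb => ?_⟩
  have hτ := hR.1
  have b0 : (3 : ℝ) ≤ T := by
    have : 3 ≤ T := by omega
    exact_mod_cast this
  have b1 : 1 / τ.im + ‖τ‖ + 1 ≤ (T : ℝ) := by
    have h1 := hR.2
    have h2 : (K₁ : ℝ) ≤ T := by exact_mod_cast (show K₁ ≤ T by omega)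
    linarith
  have b2 : ∑ j, ‖b j‖ ≤ (T : ℝ) := hK₂.trans (by exact_mod_cast (show K₂ ≤ T by omega))
  have b3 : ‖τ‖ ≤ (T : ℝ) := by
    have : 0 < 1 / τ.im := by positivity
    linarith
  obtain ⟨T', hT'⟩ : ∃ T' : ℕ, T' = T / 2 := ⟨_, rfl⟩
  have hT'1 : T₁ ≤ T' := by omega
  have hT'3 : T ≤ 3 * T' := by omega
  have hT'2 : (T' : ℝ) ≤ (T : ℝ) / 2 := by
    have : 2 * T' ≤ T := by omega
    have h1 : (2 : ℝ) * T' ≤ T := by exact_mod_cast this
    linarith
  have hwb' : ∀ j, ‖w j‖ ≤ (T : ℝ) ^ c := fun j => by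
    have := hwb j
    push_cast at this
    exact this
  choose p q hpq using fun j => mem_Lam.mp (hwI j).1
  have hb := fun j => I_NZ.pq_bound hτ b1 (hpq j) (hwb' j)
  have hpb : ∀ j, |(p j : ℝ)| ≤ (T : ℝ) ^ (c + 2) := fun j => by
    have h1 : ((|p j| : ℤ) : ℝ) ≤ (((T ^ (c + 2) : ℕ) : ℤ) : ℝ) := by exact_mod_cast (hb j).1
    push_cast at h1
    exact h1
  have hqb : ∀ j, |(q j : ℝ)| ≤ (T : ℝ) ^ (c + 2) := fun j => by
    have h1 : ((|q j| : ℤ) : ℝ) ≤ (((T ^ (c + 2) : ℕ) : ℤ) : ℝ) := by exact_mod_cast (hb j).2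
    push_cast at h1
    exact h1
  have hne : ∀ v : Fin m → ℂ, v ≠ 0 → (∀ j, IsE τ (v j)) → ∑ j, v j * b j ≠ 0 := by
    intro v hv hI h0
    exact hv (hA τ hτ v hI h0)
  have hIE : ∀ j, IsE τ (w j) := fun j => ⟨1, one_ne_zero, by
    rw [Int.cast_one, one_mul]; exact (hwI j).1, by rw [Int.cast_one, one_mul]; exact (hwI j).2⟩
  have hAB : ∑ j, w j * b j = (∑ j, (p j : ℂ) * b j) + τ * ∑ j, (q j : ℂ) * b j := by
    rw [Finset.mul_sum, ← Finset.sum_add_distrib]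
    refine Finset.sum_congr rfl fun j _ => ?_
    rw [hpq j]
    ring
  have hTe : ∀ e : ℕ, (T : ℝ) ^ e ≤ 3 ^ e * (T' : ℝ) ^ e := fun e => by
    rw [← mul_pow]
    have : (T : ℝ) ≤ 3 * T' := by exact_mod_cast hT'3
    exact pow_le_pow_left₀ (by positivity) this e
  have hm0 : (0 : ℝ) ≤ m := Nat.cast_nonneg m
  by_cases hq : ∀ j, q j = 0
  · -- rational integers
    have h1 : ∑ j, w j * b j = aeval b (LF p) := by
      rw [LF_eval, hAB]
      simp [hq]
    have h2 : aeval b (LF p) ≠ 0 := by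
      rw [← h1]
      exact hne w hw0 hIE
    rw [h1]
    have h3 := hT₁ T' hT'1 (LF p) ((LF_deg p).trans (by norm_num)) (by
      refine (LF_len p _ hpb).trans ?_
      have e1 : (T : ℝ) ^ (c + 2) ≤ (T : ℝ) ^ (3 * c + 7) :=
        pow_le_pow_right₀ (by linarith) (by omega)
      have e2 := hTe (3 * c + 7)
      have e3 : (0 : ℝ) < 3 ^ (3 * c + 7) * (T' : ℝ) ^ (3 * c + 7) := by
        have : 0 < T' := by omega
        positivity
      have e4 : (m : ℝ) ≤ 4 * (m : ℝ) ^ 2 + m + 1 := by nlinarith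
      calc (m : ℝ) * (T : ℝ) ^ (c + 2) ≤ (4 * (m : ℝ) ^ 2 + m + 1) *
            (3 ^ (3 * c + 7) * (T' : ℝ) ^ (3 * c + 7)) :=
            mul_le_mul e4 (e1.trans e2) (by positivity) (by positivity)
        _ = _ := by ring) h2
    refine le_trans ?_ h3
    apply Real.exp_le_exp.2
    linarith
  · push Not at hq
    obtain ⟨j₀, hj₀⟩ := hq
    -- the equation of `τ`
    obtain ⟨a', c', hac⟩ := mem_Lam.mp (hwI j₀).2
    have hac2 : w j₀ * τ = (a' : ℂ) + c' * τ := hac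
    have hwt : ‖w j₀ * τ‖ ≤ (T : ℝ) ^ (c + 1) := by
      rw [norm_mul, pow_succ]
      exact mul_le_mul (hwb' j₀) b3 (norm_nonneg _) (by positivity)
    have hb' := I_NZ.pq_bound hτ b1 hac2 hwt
    have ha'b : |(a' : ℝ)| ≤ (T : ℝ) ^ (c + 3) := by
      have h1 : ((|a'| : ℤ) : ℝ) ≤ (((T ^ (c + 1 + 2) : ℕ) : ℤ) : ℝ) := by exact_mod_cast hb'.1
      push_cast at h1
      exact h1
    have hc'b : |(c' : ℝ)| ≤ (T : ℝ) ^ (c + 3) := by
      have h1 : ((|c'| : ℤ) : ℝ) ≤ (((T ^ (c + 1 + 2) : ℕ) : ℤ) : ℝ) := by exact_mod_cast hb'.2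
      push_cast at h1
      exact h1
    have hquad : (q j₀ : ℂ) * τ ^ 2 = (c' - p j₀) * τ + a' := by
      have h1 : ((p j₀ : ℂ) + q j₀ * τ) * τ = (a' : ℂ) + c' * τ := by rw [← hpq j₀]; exact hac2
      linear_combination h1
    have hquad' : (q j₀ : ℂ) * (starRingEnd ℂ τ) ^ 2 = (c' - p j₀) * starRingEnd ℂ τ + a' := by
      have h1 := congrArg (starRingEnd ℂ) hquad
      simp only [map_mul, map_pow, map_add, map_sub, map_intCast] at h1
      exact h1
    have hqC : (q j₀ : ℂ) ≠ 0 := by exact_mod_cast hj₀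
    have hne' : τ ≠ starRingEnd ℂ τ := by
      intro h
      have := congrArg Complex.im h
      rw [Complex.conj_im] at this
      linarith
    have hsum : (q j₀ : ℂ) * (τ + starRingEnd ℂ τ) = c' - p j₀ := by
      have h1 : (q j₀ : ℂ) * (τ + starRingEnd ℂ τ) * (τ - starRingEnd ℂ τ) =
          (c' - p j₀) * (τ - starRingEnd ℂ τ) := by linear_combination hquad - hquad'
      exact mul_right_cancel₀ (sub_ne_zero.2 hne') h1
    have hprod : (q j₀ : ℂ) * (τ * starRingEnd ℂ τ) = -a' := by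
      linear_combination τ * hsum - hquad
    set A : ℂ := ∑ j, (p j : ℂ) * b j with hAdef
    set B : ℂ := ∑ j, (q j : ℂ) * b j with hBdef
    have hfac : aeval b (QF p q (q j₀) (c' - p j₀) (-a')) =
        (q j₀ : ℂ) * ((A + τ * B) * (A + starRingEnd ℂ τ * B)) := by
      rw [QF_eval, ← hAdef, ← hBdef]
      push_cast
      linear_combination (-(A * B)) * hsum - B ^ 2 * hprod
    have hAτ : A + τ * B ≠ 0 := by
      rw [← hAB]
      exact hne w hw0 hIE
    have hAτ' : A + starRingEnd ℂ τ * B ≠ 0 := by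
      have h1 : A + starRingEnd ℂ τ * B = ∑ j, starRingEnd ℂ (w j) * b j := by
        rw [hAdef, hBdef, Finset.mul_sum, ← Finset.sum_add_distrib]
        refine Finset.sum_congr rfl fun j _ => ?_
        rw [hpq j]
        simp only [map_add, map_mul, map_intCast]
        ring
      rw [h1]
      refine hne _ ?_ ?_
      · intro h2
        apply hw0
        funext j
        have h3 := congrFun h2 j
        simpa using h3
      · intro j
        -- conj (w j) = (trace) - w j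
        have h2 : (q j₀ : ℂ) * starRingEnd ℂ (w j) =
            ((2 * p j * q j₀ + q j * (c' - p j₀) : ℤ) : ℂ) - q j₀ * w j := by
          rw [hpq j]
          simp only [map_add, map_mul, map_intCast]
          push_cast
          linear_combination (q j : ℂ) * hsum
        obtain ⟨x, y, hxy⟩ := mem_Lam.mp (hwI j).2
        have hxy2 : w j * τ = (x : ℂ) + y * τ := hxy
        refine ⟨q j₀, hj₀, ?_, ?_⟩
        · rw [h2, mem_Lam]
          refine ⟨(2 * p j * q j₀ + q j * (c' - p j₀)) - q j₀ * p j, -(q j₀ * q j), ?_⟩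
          rw [hpq j]
          push_cast
          ring
        · rw [h2, mem_Lam]
          refine ⟨-(q j₀ * x), (2 * p j * q j₀ + q j * (c' - p j₀)) - q j₀ * y, ?_⟩
          push_cast
          linear_combination (-(q j₀ : ℂ)) * hxy2
    have hPne : aeval b (QF p q (q j₀) (c' - p j₀) (-a')) ≠ 0 := by
      rw [hfac]
      exact mul_ne_zero hqC (mul_ne_zero hAτ hAτ')
    have hT23 : (T : ℝ) ^ (c + 2) ≤ (T : ℝ) ^ (c + 3) :=
      pow_le_pow_right₀ (by linarith) (by omega)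
    have hlen : len (QF p q (q j₀) (c' - p j₀) (-a')) ≤
        4 * (m * (T : ℝ) ^ (c + 2)) ^ 2 * (T : ℝ) ^ (c + 3) := by
      apply QF_len _ _ _ _ _ _ _ hpb hqb (by positivity) ((hqb j₀).trans hT23)
      · push_cast
        have h1 : |(c' : ℝ) - p j₀| ≤ |(c' : ℝ)| + |(p j₀ : ℝ)| := abs_sub _ _
        have h2 := hpb j₀
        linarith
      · push_cast
        rw [abs_neg]
        exact ha'b
    have hkey := hT₁ T' hT'1 _ (QF_deg p q (q j₀) (c' - p j₀) (-a')) (hlen.trans (by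
      have e2 := hTe (3 * c + 7)
      have e3 : 4 * (m * (T : ℝ) ^ (c + 2)) ^ 2 * (T : ℝ) ^ (c + 3) =
          4 * (m : ℝ) ^ 2 * (T : ℝ) ^ (3 * c + 7) := by ring
      rw [e3]
      calc 4 * (m : ℝ) ^ 2 * (T : ℝ) ^ (3 * c + 7) ≤ (4 * (m : ℝ) ^ 2 + m + 1) *
            (3 ^ (3 * c + 7) * (T' : ℝ) ^ (3 * c + 7)) :=
            mul_le_mul (by linarith) e2 (by positivity) (by positivity)
        _ = _ := by ring)) hPne
    rw [hfac, norm_mul, norm_mul, ← hAB] at hkey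
    -- bound for the conjugate
    have hcb : ‖A + starRingEnd ℂ τ * B‖ ≤ (T : ℝ) ^ (c + 4) := by
      have e1 : ‖A‖ ≤ (T : ℝ) ^ (c + 2) * ∑ j, ‖b j‖ := by
        rw [hAdef, Finset.mul_sum]
        refine (norm_sum_le _ _).trans (Finset.sum_le_sum fun j _ => ?_)
        rw [norm_mul, Complex.norm_intCast]
        exact mul_le_mul_of_nonneg_right (hpb j) (norm_nonneg _)
      have e2 : ‖B‖ ≤ (T : ℝ) ^ (c + 2) * ∑ j, ‖b j‖ := by
        rw [hBdef, Finset.mul_sum]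
        refine (norm_sum_le _ _).trans (Finset.sum_le_sum fun j _ => ?_)
        rw [norm_mul, Complex.norm_intCast]
        exact mul_le_mul_of_nonneg_right (hqb j) (norm_nonneg _)
      have e3 : ‖starRingEnd ℂ τ * B‖ = ‖τ‖ * ‖B‖ := by
        rw [norm_mul, RCLike.norm_conj]
      have e4 : 0 ≤ ∑ j, ‖b j‖ := Finset.sum_nonneg fun j _ => norm_nonneg _
      have e5 : 1 + ‖τ‖ ≤ (T : ℝ) := by
        have : 0 < 1 / τ.im := by positivity
        linarith
      calc ‖A + starRingEnd ℂ τ * B‖ ≤ ‖A‖ + ‖τ‖ * ‖B‖ := by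
            rw [← e3]
            exact norm_add_le _ _
        _ ≤ (T : ℝ) ^ (c + 2) * (∑ j, ‖b j‖) + ‖τ‖ * ((T : ℝ) ^ (c + 2) * ∑ j, ‖b j‖) :=
            add_le_add e1 (mul_le_mul_of_nonneg_left e2 (norm_nonneg _))
        _ = (T : ℝ) ^ (c + 2) * ((1 + ‖τ‖) * ∑ j, ‖b j‖) := by ring
        _ ≤ (T : ℝ) ^ (c + 2) * (T * T) := by
            refine mul_le_mul_of_nonneg_left ?_ (by positivity)
            exact mul_le_mul e5 b2 e4 (by positivity)
        _ = (T : ℝ) ^ (c + 4) := by ring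
    have hq0b : ‖(q j₀ : ℂ)‖ ≤ (T : ℝ) ^ (c + 2) := by
      rw [Complex.norm_intCast]
      exact hqb j₀
    have hexp := hT₂ T (by omega)
    have h5 : Real.exp (-(T' : ℝ)) ≤ (T : ℝ) ^ (2 * c + 6) * ‖∑ j, w j * b j‖ := by
      calc Real.exp (-(T' : ℝ)) ≤ ‖(q j₀ : ℂ)‖ * (‖∑ j, w j * b j‖ *
            ‖A + starRingEnd ℂ τ * B‖) := hkey
        _ ≤ (T : ℝ) ^ (c + 2) * (‖∑ j, w j * b j‖ * (T : ℝ) ^ (c + 4)) := by
            refine mul_le_mul hq0b ?_ (by positivity) (by positivity)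
            exact mul_le_mul_of_nonneg_left hcb (norm_nonneg _)
        _ = _ := by ring
    have h6 : Real.exp (-((T : ℝ) / 2)) ≤ Real.exp (-(T' : ℝ)) := Real.exp_le_exp.2 (by linarith)
    have h7 : 0 < (T : ℝ) ^ (2 * c + 6) := by positivity
    have h8 : (T : ℝ) ^ (2 * c + 6) * Real.exp (-(T : ℝ)) ≤ Real.exp (-((T : ℝ) / 2)) := by
      have h9 : (T : ℝ) ^ (2 * c + 6) * Real.exp (-(T : ℝ)) =
          ((T : ℝ) ^ (2 * c + 6) * Real.exp ((T : ℝ) / 2)) * Real.exp (-(3 / 2 * (T : ℝ))) := by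
        rw [mul_assoc, ← Real.exp_add]
        congr 2
        ring
      rw [h9]
      calc ((T : ℝ) ^ (2 * c + 6) * Real.exp ((T : ℝ) / 2)) * Real.exp (-(3 / 2 * (T : ℝ)))
          ≤ Real.exp T * Real.exp (-(3 / 2 * (T : ℝ))) :=
            mul_le_mul_of_nonneg_right hexp (Real.exp_pos _).le
        _ = Real.exp (-((T : ℝ) / 2)) := by
            rw [← Real.exp_add]
            congr 1
            ring
    have h10 := h8.trans (h6.trans h5)
    exact le_of_mul_le_mul_left h10 h7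

end Pool.Agent.Work.MP_8da9ea_nt.AI
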