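import Pool.Agent.Work.MP_8da9ea_nt.AI.Defs
import Pool.Agent.Work.MP_8da9ea_nt.Bd.B01
import Pool.Agent.Work.MP_8da9ea_nt.Ode

/-!
# Block AI, items InvG and LocU: local inversion
-/

set_option autoImplicit false

namespace Pool.Agent.Work.MP_8da9ea_nt.AI

open MvPolynomial Metric Filter Topology Pool.Agent.Work.MP_8da9ea_nt
  Pool.Agent.Work.MP_327059_nt.GL Pool.Agent.Work.MP_8da9ea_nt.S Pool.Agent.Work.MP_8da9ea_nt.EB

namespace XLoc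

/-- quantitative inverse function theorem -/
theorem inv_quant {F : ℂ × ℂ → ℂ × ℂ} {F' : ℂ × ℂ →L[ℂ] ℂ × ℂ} {p : ℂ × ℂ}
    (hF : HasStrictFDerivAt F F' p) (hs : Function.Surjective F') (U : Set (ℂ × ℂ))
    (hU : U ∈ 𝓝 p) :
    ∃ C ε₀ : ℝ, 1 ≤ C ∧ 0 < ε₀ ∧ ∀ q : ℂ × ℂ, ‖q - F p‖ ≤ ε₀ →
      ∃ p' ∈ U, F p' = q ∧ ‖p' - p‖ ≤ C * ‖q - F p‖ := by
  have hi : Function.Injective (F' : ℂ × ℂ →ₗ[ℂ] ℂ × ℂ) :=
    LinearMap.injective_iff_surjective.2 hs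
  set e : (ℂ × ℂ) ≃L[ℂ] (ℂ × ℂ) := (LinearEquiv.ofBijective (F' : ℂ × ℂ →ₗ[ℂ] ℂ × ℂ)
    ⟨hi, hs⟩).toContinuousLinearEquiv with he
  have hee : (e : ℂ × ℂ →L[ℂ] ℂ × ℂ) = F' := by
    ext x <;> rfl
  have hF2 : HasStrictFDerivAt F (e : ℂ × ℂ →L[ℂ] ℂ × ℂ) p := by
    rw [hee]
    exact hF
  have h1 := hF2.eventually_right_inverse
  have h2 := hF2.to_localInverse.hasFDerivAt.isBigO_sub
  have h3 : hF2.localInverse F e p (F p) = p := hF2.localInverse_apply_image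
  rw [h3] at h2
  obtain ⟨C, hC⟩ := h2.bound
  have h4 : ∀ᶠ q in 𝓝 (F p), hF2.localInverse F e p q ∈ U := by
    have h5 := hF2.to_localInverse.hasFDerivAt.continuousAt
    have h6 : Tendsto (hF2.localInverse F e p) (𝓝 (F p)) (𝓝 p) := by
      have h7 := h5.tendsto
      rwa [h3] at h7
    exact h6 hU
  obtain ⟨δ, hδ, hb⟩ := Metric.eventually_nhds_iff.1 (h1.and (hC.and h4))
  refine ⟨max C 1, δ / 2, le_max_right _ _, by positivity, fun q hq => ?_⟩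
  obtain ⟨h8, h9, h10⟩ := hb (y := q) (by
    rw [dist_eq_norm]
    linarith)
  refine ⟨_, h10, h8, h9.trans ?_⟩
  exact mul_le_mul_of_nonneg_right (le_max_left _ _) (norm_nonneg _)

end XLoc

/-- T5 -/
theorem InvG_pf : S_InvG := by
  intro τ μ hτ hμ
  have hG2 := ode_gg2 hτ
  have hG3 := ode_gg3 hτ
  have hGa2 : AnalyticAt ℂ gg2 τ :=
    analyticAt_const.mul (analytic_gk (τ := fun t => t) (k := 4) (by norm_num) analyticAt_id hτ)
  have hGa3 : AnalyticAt ℂ gg3 τ :=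
    analyticAt_const.mul (analytic_gk (τ := fun t => t) (k := 6) (by norm_num) analyticAt_id hτ)
  have sG2 : HasStrictDerivAt gg2 ((-4 * et τ * gg2 τ + 6 * gg3 τ) / kap) τ := by
    have := hGa2.hasStrictDerivAt
    rwa [hG2.deriv] at this
  have sG3 : HasStrictDerivAt gg3 ((-6 * et τ * gg3 τ + gg2 τ ^ 2 / 3) / kap) τ := by
    have := hGa3.hasStrictDerivAt
    rwa [hG3.deriv] at this
  set G := gg2 τ with hGdef
  set H := gg3 τ with hHdef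
  set G' := (-4 * et τ * G + 6 * H) / kap with hG'
  set H' := (-6 * et τ * H + G ^ 2 / 3) / kap with hH'
  have fst' : HasStrictFDerivAt (fun p : ℂ × ℂ => p.1) (ContinuousLinearMap.fst ℂ ℂ ℂ) (τ, μ) :=
    hasStrictFDerivAt_fst
  have snd' : HasStrictFDerivAt (fun p : ℂ × ℂ => p.2) (ContinuousLinearMap.snd ℂ ℂ ℂ) (τ, μ) :=
    hasStrictFDerivAt_snd
  have f1 : HasStrictFDerivAt (fun p : ℂ × ℂ => gg2 p.1)
      (G' • ContinuousLinearMap.fst ℂ ℂ ℂ) (τ, μ) :=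
    HasStrictDerivAt.comp_hasStrictFDerivAt (h₂ := gg2)
      (f := fun p : ℂ × ℂ => p.1) (τ, μ) sG2 fst'
  have f2 : HasStrictFDerivAt (fun p : ℂ × ℂ => gg3 p.1)
      (H' • ContinuousLinearMap.fst ℂ ℂ ℂ) (τ, μ) :=
    HasStrictDerivAt.comp_hasStrictFDerivAt (h₂ := gg3)
      (f := fun p : ℂ × ℂ => p.1) (τ, μ) sG3 fst'
  have hF := ((snd'.pow 4).mul f1).prodMk ((snd'.pow 6).mul f2)
  have k0 := kap_ne_zero
  have hdisc := Fx.disc_ne hτ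
  rw [← hGdef, ← hHdef] at hdisc
  have hdet : 3 * G' * H - 2 * G * H' ≠ 0 := by
    intro h0
    have h1 : kap * (3 * G' * H - 2 * G * H') = -(2 / 3) * (G ^ 3 - 27 * H ^ 2) := by
      rw [hG', hH']
      field_simp
      ring
    rw [h0, mul_zero] at h1
    apply hdisc
    linear_combination -(3 / 2 : ℂ) * h1.symm
  obtain ⟨C, ε₀, hC, hε₀, hb⟩ := XLoc.inv_quant hF (by
    rintro ⟨a, b⟩
    set D := 3 * G' * H - 2 * G * H' with hD
    refine ⟨((3 * μ ^ 5 * H * a - 2 * μ ^ 3 * G * b) / (μ ^ 9 * D),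
      (μ ^ 4 * G' * b - μ ^ 6 * H' * a) / (2 * (μ ^ 9 * D))), ?_⟩
    have hμD : μ ^ 9 * D ≠ 0 := mul_ne_zero (pow_ne_zero _ hμ) hdet
    ext
    · simp
      field_simp
      rw [hD]
      ring
    · simp
      field_simp
      rw [hD]
      ring) {p : ℂ × ℂ | 0 < p.1.im ∧ p.2 ≠ 0} (by
    have c1 : ContinuousAt (fun p : ℂ × ℂ => p.1.im) (τ, μ) := by fun_prop
    have c2 : ContinuousAt (fun p : ℂ × ℂ => p.2) (τ, μ) := by fun_prop
    exact (c1.eventually (lt_mem_nhds hτ)).and (c2.eventually_ne hμ))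
  refine ⟨C, ε₀, hC, hε₀, fun a b ε hε ha hb' => ?_⟩
  have hq : ‖(a, b) - (μ ^ 4 * G, μ ^ 6 * H)‖ ≤ ε := by
    rw [Prod.mk_sub_mk, Prod.norm_mk]
    exact max_le ha hb'
  obtain ⟨p, hp1, hp2, hp3⟩ := hb (a, b) (hq.trans hε)
  have hp4 := congrArg Prod.fst hp2
  have hp5 := congrArg Prod.snd hp2
  have hp6 : ‖p - (τ, μ)‖ ≤ C * ε := hp3.trans (mul_le_mul_of_nonneg_left hq (by linarith))
  refine ⟨p.1, p.2, hp1.1, hp1.2, hp4, hp5, ?_, ?_⟩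
  · exact (norm_fst_le (p - (τ, μ))).trans hp6
  · exact (norm_snd_le (p - (τ, μ))).trans hp6

/-- T6 -/
theorem LocU_pf : S_LocU := by
  intro τ hτ u₀ hu₀ hd
  have fst' : HasStrictFDerivAt (fun p : ℂ × ℂ => p.1) (ContinuousLinearMap.fst ℂ ℂ ℂ) (τ, u₀) :=
    hasStrictFDerivAt_fst
  have hF := fst'.prodMk (hasStrictFDerivAt_wp hτ hu₀)
  set D := wpd τ u₀ with hD
  have hDn : 0 < ‖D‖ := norm_pos_iff.2 hd
  have hcont : ContinuousAt (fun p : ℂ × ℂ => wpd p.1 p.2) (τ, u₀) :=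
    (hasStrictFDerivAt_wpd hτ hu₀).hasFDerivAt.continuousAt
  obtain ⟨C, ε₀, hC, hε₀, hb⟩ := XLoc.inv_quant hF (by
    rintro ⟨a, b⟩
    refine ⟨(a, (b - wpt τ u₀ * a) / D), ?_⟩
    ext
    · simp
    · simp [lf_apply]
      field_simp
      ring) ({p : ℂ × ℂ | 0 < p.1.im ∧ p.2 ∉ Lam p.1} ∩ {p | ‖wpd p.1 p.2 - D‖ < ‖D‖ / 4}) (by
    refine Filter.inter_mem (Dom_nhds hτ hu₀) ?_
    have h1 : ContinuousAt (fun p : ℂ × ℂ => ‖wpd p.1 p.2 - D‖) (τ, u₀) :=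
      (hcont.sub continuousAt_const).norm
    refine h1.eventually_lt continuousAt_const ?_
    rw [← hD, sub_self, norm_zero]
    positivity)
  refine ⟨C, min ε₀ (‖D‖ / 4), hC, lt_min hε₀ (by positivity), fun τ' x y h1 h2 h3 heq => ?_⟩
  have hq : ‖(τ', x) - (τ, wp 1 τ u₀)‖ ≤ ‖x - wp 1 τ u₀‖ + ‖τ' - τ‖ := by
    rw [Prod.mk_sub_mk, Prod.norm_mk]
    have := norm_nonneg (x - wp 1 τ u₀)
    have := norm_nonneg (τ' - τ)
    exact max_le (by linarith) (by linarith)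
  have hq2 : ‖(τ', x) - (τ, wp 1 τ u₀)‖ ≤ ε₀ := by
    rw [Prod.mk_sub_mk, Prod.norm_mk]
    exact max_le (h1.trans (min_le_left _ _)) (h2.trans (min_le_left _ _))
  obtain ⟨p, ⟨hp1, hp1'⟩, hp2, hp3⟩ := hb (τ', x) hq2
  have hp4 : p.1 = τ' := congrArg Prod.fst hp2
  have hp5 : wp 1 p.1 p.2 = x := congrArg Prod.snd hp2
  have hp1'' : ‖wpd p.1 p.2 - D‖ < ‖D‖ / 4 := hp1'
  rw [hp4] at hp5 hp1''
  obtain ⟨hpi, hpl⟩ := hp1
  rw [hp4] at hpi hpl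
  refine ⟨p.2, hpl, hp5, ?_, ?_⟩
  · have h5 := wpd_sq hpi hpl
    rw [hp5] at h5
    have h6 : (wpd τ' p.2 - y) * (wpd τ' p.2 + y) = 0 := by
      linear_combination h5 - heq
    rcases mul_eq_zero.1 h6 with h7 | h7
    · exact sub_eq_zero.1 h7
    · exfalso
      have h8 : ‖y - D‖ ≤ ‖D‖ / 4 := h3.trans (min_le_right _ _)
      have h9 : D + D = -((wpd τ' p.2 - D) + (y - D)) := by linear_combination h7
      have h10 : ‖D + D‖ ≤ ‖wpd τ' p.2 - D‖ + ‖y - D‖ := by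
        rw [h9, norm_neg]
        exact norm_add_le _ _
      have h11 : ‖D + D‖ = 2 * ‖D‖ := by
        rw [← two_mul, norm_mul]
        simp
      linarith
  · exact (norm_snd_le (p - (τ, u₀))).trans (hp3.trans (mul_le_mul_of_nonneg_left hq (by linarith)))

end Pool.Agent.Work.MP_8da9ea_nt.AI
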