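import Pool.Agent.Work.MP_8da9ea_nt.AI.Defs
import Pool.Agent.Work.MP_8da9ea_nt.EB.I_TIE

/-!
# Block AI, item TIU: the transcendence input for arbitrary invariants
-/

set_option autoImplicit false

namespace Pool.Agent.Work.MP_8da9ea_nt.AI

open MvPolynomial Metric Filter Topology Pool.Agent.Work.MP_8da9ea_nt
  Pool.Agent.Work.MP_327059_nt.GL Pool.Agent.Work.MP_8da9ea_nt.S Pool.Agent.Work.MP_8da9ea_nt.EB

open I_TIE in
/-- T8 -/
theorem TIU_pf (h1 : S_PsiE) (h2 : S_CritU) (h3 : S_NZU) : S_TIU := by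
  intro Q Q' m hm
  obtain ⟨q, hq⟩ := h1 m 12 (3 * Q' + 4) hm
  obtain ⟨n₂, hN⟩ := h3 Q m q (by omega)
  refine ⟨max 2 n₂, ?_⟩
  intro τ μ b hτ hμ hFT hKLI n hn x hMS hNT hTr
  have hn2 : 2 ≤ n := (le_max_left _ _).trans hn
  have hn3 : n₂ ≤ n := (le_max_right _ _).trans hn
  obtain ⟨B, hB, hMS⟩ := hMS
  obtain ⟨C, T₁, hC, hCr⟩ := h2 m n (m + 1) hm hn2 (by omega) τ μ b x hτ hμ hNT hTr
  have hsum0 : 0 ≤ ∑ i, ‖x i‖ := Finset.sum_nonneg fun i _ => norm_nonneg _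
  obtain ⟨T₂, hPs⟩ := hq q le_rfl τ μ hτ hμ b (1 + ∑ i, ‖x i‖) (by linarith)
  obtain ⟨R, hR⟩ : ∃ R : ℝ, R = 2 / τ.im + ‖τ‖ + τ.im := ⟨_, rfl⟩
  obtain ⟨T₃, hNZ⟩ := hN b hFT hKLI n hn3 R x
  obtain ⟨T₄, hT4⟩ := exists_nat_gt (max C B)
  set T := max 2 (max (max T₁ T₂) (max T₃ T₄)) with hTdef
  have hTa : 2 ≤ T := le_max_left _ _
  have hTb : T₁ ≤ T := ((le_max_left _ _).trans (le_max_left _ _)).trans (le_max_right _ _)
  have hTc : T₂ ≤ T := ((le_max_right _ _).trans (le_max_left _ _)).trans (le_max_right _ _)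
  have hTd : T₃ ≤ T := ((le_max_left _ _).trans (le_max_right _ _)).trans (le_max_right _ _)
  have hTe : T₄ ≤ T := ((le_max_right _ _).trans (le_max_right _ _)).trans (le_max_right _ _)
  have hTr2 : (2 : ℝ) ≤ T := by exact_mod_cast hTa
  have hTe' : (T₄ : ℝ) ≤ T := by exact_mod_cast hTe
  have hTC : C ≤ T := ((le_max_left C B).trans hT4.le).trans hTe'
  have hTB : B < T := lt_of_le_of_lt (le_max_right C B) (hT4.trans_le hTe')
  obtain ⟨p, hp0, hpb, hpAF⟩ := hPs T hTc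
  obtain ⟨ar1, ar2⟩ := arith Q' q m hm C B T hC hB hTr2 hTC hTB
  have hW1 : 1 ≤ T ^ q := Nat.one_le_pow _ _ (by omega)
  have hh1 : (1 : ℝ) ≤ (T : ℝ) ^ (q + 4) := one_le_pow₀ (by linarith)
  obtain ⟨τ', u, F, hτ', htt, hu, hF0, hFd, hFz⟩ := hCr T hTb (T ^ q) ((T : ℝ) ^ (q + 4))
    ((T : ℝ) ^ ((q + 12) * (m - 1) + (3 * Q' + 4))) hW1 hh1 (by push_cast; exact ar1) p hp0
    (by
      intro y
      have h5 := hpb y
      have h6 : |(p y : ℝ)| ≤ (2 : ℝ) ^ (T ^ (q + 4)) := by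
        have : ((|p y| : ℤ) : ℝ) ≤ (((2 : ℤ) ^ (T ^ (q + 4)) : ℤ) : ℝ) := by exact_mod_cast h5
        rw [Int.cast_abs] at this
        push_cast at this
        exact this
      refine h6.trans ?_
      have h7 : (2 : ℝ) ≤ Real.exp 1 := by
        have := Real.add_one_le_exp (1 : ℝ)
        linarith
      calc (2 : ℝ) ^ (T ^ (q + 4)) ≤ (Real.exp 1) ^ (T ^ (q + 4)) :=
            pow_le_pow_left₀ (by norm_num) h7 _
        _ = Real.exp ((T : ℝ) ^ (q + 4)) := by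
            rw [← Real.exp_nat_mul]
            push_cast
            rw [mul_one])
    (by
      intro s hs
      refine hpAF (fun r => cmb (s r) x) (fun i => norm_cmb_le x (s i) T (hs i).2) ?_
      intro i j
      exact hNT (s i) (hs i).1 j)
  push_cast at hu
  set E := (T : ℝ) ^ ((q + 12) * (m - 1) + (3 * Q' + 4)) /
      (C * ((T : ℝ) ^ q * (T : ℝ) ^ 11 + (T : ℝ) ^ (q + 4)) ^ (m - 2)) with hE
  have hu' : ∀ i j, ‖u i j - b j * x i‖ ≤ Real.exp (-E) := by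
    intro i j
    have := hu i j
    rwa [neg_div] at this
  have hT0 : (0 : ℝ) ≤ T := Nat.cast_nonneg _
  have hE0 : 0 ≤ E := by
    have : 0 ≤ B * (T : ℝ) ^ (3 * Q') + T := by positivity
    linarith
  have hInR : InR R τ' := by
    refine ⟨hτ', ?_⟩
    have e1 : τ.im / 2 ≤ τ'.im := by
      have e2 := (Complex.abs_im_le_norm (τ' - τ)).trans htt
      rw [Complex.sub_im, abs_le] at e2
      linarith [e2.1]
    have e3 : 1 / τ'.im ≤ 2 / τ.im := by
      rw [div_le_div_iff₀ hτ' hτ]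
      linarith
    have e4 : ‖τ'‖ ≤ ‖τ‖ + τ.im := by
      have e5 := norm_add_le (τ' - τ) τ
      rw [sub_add_cancel] at e5
      linarith
    rw [hR]
    linarith
  obtain ⟨s, hs0, hsb, hsn⟩ := hNZ T hTd τ' hInR (Real.exp (-E)) u F (Real.exp_pos _).le
    (Real.exp_le_one_iff.2 (by linarith)) hu' hF0 (fun j => (hFd j).le) hFz
  have hms := hMS s hs0 ((T : ℝ) ^ 3) (one_le_pow₀ (by linarith)) (by
    intro i
    have h8 := hsb i
    have : ((|s i| : ℤ) : ℝ) ≤ (((T ^ 3 : ℕ) : ℤ) : ℝ) := by exact_mod_cast h8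
    rw [Int.cast_abs] at this
    push_cast at this
    exact this)
  have h9 : Real.exp (-(B * ((T : ℝ) ^ 3) ^ Q')) ≤ Real.exp (-E) * Real.exp T := hms.trans hsn
  rw [← Real.exp_add, Real.exp_le_exp, ← pow_mul] at h9
  linarith

end Pool.Agent.Work.MP_8da9ea_nt.AI
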