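import Pool.Agent.Work.MP_8da9ea_nt.AI.I_ZEU
import Pool.Agent.Work.MP_8da9ea_nt.AI.I_LMU
import Pool.Agent.Work.MP_8da9ea_nt.AI.I_NZU
import Pool.Agent.Work.MP_8da9ea_nt.AI.I_Loc
import Pool.Agent.Work.MP_8da9ea_nt.AI.I_CritU
import Pool.Agent.Work.MP_8da9ea_nt.AI.I_TIU
import Pool.Agent.Work.MP_8da9ea_nt.EB.Asm
import Pool.Agent.Work.MP_8da9ea_nt.FR.StmtsV

/-!
# Block AI: assembly of the transcendence input for arbitrary invariants
-/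

set_option autoImplicit false

namespace Pool.Agent.Work.MP_8da9ea_nt.AI

open Pool.Agent.Work.MP_327059_nt.GL Pool.Agent.Work.MP_8da9ea_nt.S Pool.Agent.Work.MP_8da9ea_nt.EB

theorem x_ZEU : S_ZEU :=
  ZEU_pf (ZStepU_pf x_OpA Pop_pf Fac_pf (Branch_pf Surj_pf) Split_pf (Cnt_pf Surj_pf) Lin_pf Glob_pf
    FinU_pf x_ZRes)

theorem x_NZU : S_NZU := NZU_pf x_ZEU LMU_pf x_ManyInd x_Sieg

theorem x_CritU : S_CritU :=
  CritU_pf x_Tree x_TrueVal (ZUp_pf WpLow_pf) PEval_pf InvG_pf LocU_pf x_Crit x_Tensor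

/-- The transcendence input for arbitrary invariants. -/
theorem x_TIU : S_TIU := TIU_pf x_PsiE x_CritU x_NZU

/-- The statement `S_TIV` of the block FR. -/
theorem x_TIV : FR.S_TIV := by
  intro Q Q' m hm
  obtain ⟨n₀, h⟩ := x_TIU Q Q' m hm
  exact ⟨n₀, fun τ μ hτ hμ b hb hs n hn x hx hNT => h τ μ b hτ hμ hb hs n hn x hx hNT⟩

end Pool.Agent.Work.MP_8da9ea_nt.AI
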