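import Pool.Agent.Work.MP_8da9ea_nt.EB.StmtsT

/-!
# Block AI (arbitrary invariants): definitions and statements of the transcendence part

The elliptic transcendence input of the block EB for lattices with arbitrary invariants. The nearby
points of the criterion lie on nearby curves, so the zero estimate is needed uniformly for all `τ` in
a compact set.
-/

set_option autoImplicit false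

namespace Pool.Agent.Work.MP_8da9ea_nt.AI

open MvPolynomial Metric Pool.Agent.Work.MP_327059_nt.GL Pool.Agent.Work.MP_8da9ea_nt.S
  Pool.Agent.Work.MP_8da9ea_nt.EB

/-- The nonzero elements of the lattice have norm at least `δ`. -/
def LowL (δ : ℝ) (τ : ℂ) : Prop := ∀ l ∈ Lam τ, l ≠ 0 → δ ≤ ‖l‖

/-- The parameter is in a bounded region. -/
def InR (R : ℝ) (τ : ℂ) : Prop := 0 < τ.im ∧ 1 / τ.im + ‖τ‖ ≤ R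

/-- Linear independence over all the fields `k = End ⊗ ℚ`, that is over `ℚ` and over all imaginary
quadratic fields. -/
def AKLI {m : ℕ} (b : Fin m → ℂ) : Prop := ∀ τ : ℂ, 0 < τ.im → KLI τ b

/-- The zero estimate for `m` functions, uniform in `τ`. -/
def ZEU (m : ℕ) : Prop := ∃ c : ℕ, ∀ δ : ℝ, 0 < δ → ∀ n : ℕ, ∃ C : ℕ, 1 ≤ C ∧
  ∀ τ : ℂ, 0 < τ.im → LowL δ τ → ∀ (S B K : ℕ) (a : Fin m → ℂ) (u : Fin n → Fin m → ℂ)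
    (A : Finset (Fin n → ℤ)) (F : MvPolynomial (Fin m) ℂ), 1 ≤ B → 1 ≤ K →
    (∀ s ∈ A, ∀ i, 0 ≤ s i ∧ s i ≤ (S : ℤ)) → (S + 1) ^ n ≤ K * A.card → F ≠ 0 →
    (∀ i, F.degreeOf i ≤ B) →
    (∀ s ∈ A, (∀ j, a j + pc u s j ∉ Lam τ) ∧ eval (fun j => wp 1 τ (a j + pc u s j)) F = 0) →
      ∃ w : Fin m → ℂ, w ≠ 0 ∧ (∀ j, IsI τ (w j)) ∧
        (∀ j, ‖w j‖ ≤ ((C * (2 * B * K) ^ c : ℕ) : ℝ)) ∧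
        (S + 1) ^ n ≤ C * (2 * B * K) ^ c * cntR τ (c * S) u w

/-- T1: uniform version of `S_Fin` (`I_Fin.lean`: the constant depends only on `δ`) -/
def S_FinU : Prop := ∀ δ : ℝ, 0 < δ → ∃ C : ℕ, 1 ≤ C ∧ ∀ τ : ℂ, 0 < τ.im → LowL δ τ →
  ∀ (m B : ℕ) (F : MvPolynomial (Fin (m + 1)) ℂ) (α : Fin m → ℂ) (ι : Type) (D : Finset ι)
    (κ : ι → ℂ), 1 ≤ B → F ≠ 0 → (∀ i, F.degreeOf i ≤ B) → D.Nonempty →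
  (∀ d ∈ D, ∃ v : Fin m → ℂ, κ d + ∑ i, α i * v i ∉ Lam τ) →
  (∀ d ∈ D, ∀ v : Fin m → ℂ, (∀ i, v i ∉ Lam τ) → κ d + ∑ i, α i * v i ∉ Lam τ →
    eval (pw τ v (κ d + ∑ i, α i * v i)) F = 0) →
  ∃ N : ℕ, N ≠ 0 ∧ N ≤ (4 * B * B) ^ m ∧ (∀ i, IsI τ ((N : ℂ) * α i)) ∧
    (∀ i, ‖α i‖ ≤ ((C * B : ℕ) : ℝ)) ∧
    ∃ D' ⊆ D, D.card ≤ 2 * B * D'.card ∧ ∀ d ∈ D', ∀ d' ∈ D', κ d - κ d' ∈ Lam τ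

/-- T2: the uniform zero estimate -/
def S_ZEU : Prop := ∀ m : ℕ, ZEU m

/-- T3: measure of linear independence, uniform over all the fields `k` -/
def S_LMU : Prop := ∀ (Q m : ℕ) (b : Fin m → ℂ), FT Q b → AKLI b → ∀ (R : ℝ) (c : ℕ),
  ∃ T₀ : ℕ, ∀ T : ℕ, T₀ ≤ T → ∀ τ : ℂ, InR R τ → ∀ w : Fin m → ℂ, w ≠ 0 → (∀ j, IsI τ (w j)) →
    (∀ j, ‖w j‖ ≤ ((T ^ c : ℕ) : ℝ)) → Real.exp (-(T : ℝ)) ≤ ‖∑ j, w j * b j‖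

/-- T4: a polynomial vanishing at the perturbed points gives a small point, uniformly in `τ` -/
def S_NZU : Prop := ∀ (Q m q : ℕ), 1 ≤ m → ∃ n₀ : ℕ, ∀ b : Fin m → ℂ, FT Q b → AKLI b →
  ∀ n : ℕ, n₀ ≤ n → ∀ (R : ℝ) (x : Fin n → ℂ), ∃ T₀ : ℕ, ∀ T : ℕ, T₀ ≤ T → ∀ τ : ℂ, InR R τ →
    ∀ (ε : ℝ) (u : Fin n → Fin m → ℂ) (F : MvPolynomial (Fin m) ℂ), 0 ≤ ε → ε ≤ 1 →
      (∀ i j, ‖u i j - b j * x i‖ ≤ ε) → F ≠ 0 → (∀ j, F.degreeOf j ≤ T ^ q) →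
      (∀ s : Fin n → ℤ, (∀ i, 0 ≤ s i ∧ s i ≤ (T : ℤ)) → (∀ j, pc u s j ∉ Lam τ) →
        eval (fun j => wp 1 τ (pc u s j)) F = 0) →
      ∃ s : Fin n → ℤ, s ≠ 0 ∧ (∀ i, |s i| ≤ ((T ^ 3 : ℕ) : ℤ)) ∧
        ‖cmb s x‖ ≤ ε * Real.exp T

/-- T5: nearby invariants are invariants of nearby lattices. Proof: inverse function theorem for
`(τ, μ) ↦ (μ ^ 4 gg2 τ, μ ^ 6 gg3 τ)`; the determinant is a multiple of the discriminant by `ode_gg2`,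
`ode_gg3`. -/
def S_InvG : Prop := ∀ (τ μ : ℂ), 0 < τ.im → μ ≠ 0 →
  ∃ (C ε₀ : ℝ), 1 ≤ C ∧ 0 < ε₀ ∧ ∀ (a b : ℂ) (ε : ℝ), ε ≤ ε₀ →
    ‖a - μ ^ 4 * gg2 τ‖ ≤ ε → ‖b - μ ^ 6 * gg3 τ‖ ≤ ε →
      ∃ τ' μ' : ℂ, 0 < τ'.im ∧ μ' ≠ 0 ∧ μ' ^ 4 * gg2 τ' = a ∧ μ' ^ 6 * gg3 τ' = b ∧
        ‖τ' - τ‖ ≤ C * ε ∧ ‖μ' - μ‖ ≤ C * ε

/-- T6: local inverse of `℘`, uniform in `τ`. Proof: inverse function theorem for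
`(τ, z) ↦ (τ, ℘_τ(z))`; the sign of `℘'` by continuity. -/
def S_LocU : Prop := ∀ τ : ℂ, 0 < τ.im → ∀ u₀ ∉ Lam τ, wpd τ u₀ ≠ 0 →
  ∃ C ε₀ : ℝ, 1 ≤ C ∧ 0 < ε₀ ∧ ∀ τ' x y : ℂ, ‖τ' - τ‖ ≤ ε₀ → ‖x - wp 1 τ u₀‖ ≤ ε₀ →
    ‖y - wpd τ u₀‖ ≤ ε₀ → y ^ 2 = 4 * x ^ 3 - gg2 τ' * x - gg3 τ' →
      ∃ u ∉ Lam τ', wp 1 τ' u = x ∧ wpd τ' u = y ∧
        ‖u - u₀‖ ≤ C * (‖x - wp 1 τ u₀‖ + ‖τ' - τ‖)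

/-- T7: the criterion step for arbitrary invariants -/
def S_CritU : Prop := ∀ (m n G : ℕ), 2 ≤ m → 2 ≤ n → 1 ≤ G → ∀ (τ μ : ℂ) (b : Fin m → ℂ)
  (x : Fin n → ℂ), 0 < τ.im → μ ≠ 0 → NT τ b x →
  TrLe (m - 2) (ptE τ μ (fun i j => b j * x i)) →
  ∃ (C : ℝ) (T₀ : ℕ), 1 ≤ C ∧ ∀ T : ℕ, T₀ ≤ T → ∀ (W : ℕ) (h U : ℝ), 1 ≤ W → 1 ≤ h →
    C * (W * (T : ℝ) ^ 11 + h) ^ (m - 1) ≤ U →
    ∀ p : (Fin G → Fin m → Fin W) → ℤ, p ≠ 0 → (∀ x, |(p x : ℝ)| ≤ Real.exp h) →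
    (∀ s : Fin G → Fin n → ℤ, (∀ r, s r ≠ 0 ∧ ∀ i, 0 ≤ s r i ∧ s r i ≤ (T : ℤ)) →
      ‖AF τ μ b p (fun r => cmb (s r) x)‖ * ∏ r, ∏ j, d1 τ (b j * cmb (s r) x) ^ (2 * W) ≤
        Real.exp (-U)) →
    ∃ (τ' : ℂ) (u : Fin n → Fin m → ℂ) (F : MvPolynomial (Fin m) ℂ),
      0 < τ'.im ∧ ‖τ' - τ‖ ≤ τ.im / 2 ∧
      (∀ i j, ‖u i j - b j * x i‖ ≤ Real.exp (-U / (C * (W * (T : ℝ) ^ 11 + h) ^ (m - 2)))) ∧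
      F ≠ 0 ∧ (∀ j, F.degreeOf j < W) ∧
      ∀ s : Fin n → ℤ, (∀ i, 0 ≤ s i ∧ s i ≤ (T : ℤ)) → (∀ j, pc u s j ∉ Lam τ') →
        eval (fun j => wp 1 τ' (pc u s j)) F = 0

/-- T8: the transcendence input for arbitrary invariants -/
def S_TIU : Prop := ∀ (Q Q' m : ℕ), 2 ≤ m → ∃ n₀ : ℕ, ∀ (τ μ : ℂ) (b : Fin m → ℂ), 0 < τ.im →
  μ ≠ 0 → FT Q b → AKLI b → ∀ n : ℕ, n₀ ≤ n → ∀ x : Fin n → ℂ,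
    MS Q' x → NT τ b x → ¬ TrLe (m - 2) (ptE τ μ (fun i j => b j * x i))

end Pool.Agent.Work.MP_8da9ea_nt.AI
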